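import Pool.Agent.Helper95.BG.Goals

/-!
# Boolean grammars: the tree evaluation (packet TREE)
-/

namespace Pool.Agent.Helper27.BG.PkTREE

open Pool.Agent.Helper95.BG
open Pool.Agent.Helper65.LinSpace Pool.Agent.Helper78 Pool.Agent.Helper78.Mpc
  Pool.Agent.Helper78.Xor Finset

theorem ifz_of_eq {c x y : ℕ} (h : c = 0) : ifz c x y = x := by
  unfold ifz
  rw [if_pos h]

theorem ifz_of_ne {c x y : ℕ} (h : c ≠ 0) : ifz c x y = y := by
  unfold ifz
  rw [if_neg h]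

theorem ifz_lt {c x y B : ℕ} (hx : x < B) (hy : y < B) : ifz c x y < B := by
  unfold ifz
  split_ifs
  · exact hx
  · exact hy

theorem tabb_lt {q b : ℕ} {d : ℕ → ℕ} (h : ∀ i < b * b, d i < 2 ^ q) :
    tab (2 ^ q) (b * b) d < 2 ^ (b * b * q) := by
  have h1 := tab_lt h
  rwa [← pow_mul, mul_comm q] at h1

theorem orB_shift (q b K : ℕ) (f : ℕ → ℕ) :
    orB q 0 b (fun k => f (K * b + k)) = orB q (K * b) ((K + 1) * b) f := by
  unfold orB
  have h1 : (K + 1) * b - K * b = b := by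
    rw [Nat.succ_mul]
    omega
  rw [h1]
  simp only [Nat.sub_zero, zero_add]

theorem stepL_lt {q b : ℕ} {lt : ℕ → ℕ} {bt : ℕ → ℕ → ℕ} {ps : ℕ → ℕ} (hg : Good q lt bt ps)
    (I J DI DJ S W : ℕ) : stepL q b lt bt ps I J DI DJ S W < 2 ^ (b * b * q) := by
  unfold stepL
  refine tabb_lt fun c _ => ?_
  unfold cellL
  exact ifz_lt (by positivity) (ifz_lt (hg.2.2 _) (hg.1 _))

theorem nrec_lt {B : ℕ} {k : ℕ → ℕ → ℕ} (hB : 0 < B) (hk : ∀ i w, k i w < B) (n : ℕ) :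
    nrec 0 k n < B := by
  cases n with
  | zero => exact hB
  | succ n => exact hk _ _

theorem diagL_lt {q b : ℕ} {lt : ℕ → ℕ} {bt : ℕ → ℕ → ℕ} {ps : ℕ → ℕ} (hg : Good q lt bt ps)
    (I : ℕ) : diagL q b lt bt ps I < 2 ^ (b * b * q) := by
  unfold diagL
  exact nrec_lt (by positivity) (fun _ _ => stepL_lt hg _ _ _ _ _ _) _

theorem offL_lt {q b : ℕ} {lt : ℕ → ℕ} {bt : ℕ → ℕ → ℕ} {ps : ℕ → ℕ} (hg : Good q lt bt ps)
    (I J S : ℕ) : offL q b lt bt ps I J S < 2 ^ (b * b * q) := by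
  unfold offL
  exact nrec_lt (by positivity) (fun _ _ => stepL_lt hg _ _ _ _ _ _) _

theorem FT_lt {q b : ℕ} {lt : ℕ → ℕ} {bt : ℕ → ℕ → ℕ} {ps : ℕ → ℕ} (hg : Good q lt bt ps)
    (M u x : ℕ) : FT q b M lt bt ps u x < 2 ^ (b * b * q) := by
  unfold FT
  refine ifz_lt (ifz_lt (offL_lt hg _ _ _) (diagL_lt hg _))
    (ifz_lt (ifz_lt (by positivity) ?_) ?_)
  · unfold prodL
    exact tabb_lt fun _ _ => orB_lt _ _ _ _
  · unfold sumL
    exact tabb_lt fun _ _ => lor_lt _ _ _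

theorem VT_lt {q b Λ : ℕ} {lt : ℕ → ℕ} {bt : ℕ → ℕ → ℕ} {ps : ℕ → ℕ} (hg : Good q lt bt ps)
    (h u : ℕ) : VT q b Λ lt bt ps h u < 2 ^ (b * b * q) :=
  gval_lt (fun _ _ => FT_lt hg _ _ _) (fun _ => by positivity) _ _

theorem VT_succ {q b Λ : ℕ} {lt : ℕ → ℕ} {bt : ℕ → ℕ → ℕ} {ps : ℕ → ℕ} (h u : ℕ) :
    VT q b Λ lt bt ps (h + 1) u = FT q b (2 ^ Λ) lt bt ps u
      (tab (2 ^ (b * b * q)) 2 fun i => VT q b Λ lt bt ps h (chT (2 ^ Λ) Λ u i)) := rfl

theorem dig_ch {q b Λ : ℕ} {lt : ℕ → ℕ} {bt : ℕ → ℕ → ℕ} {ps : ℕ → ℕ} (hg : Good q lt bt ps)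
    (h u : ℕ) {i : ℕ} (hi : i < 2) :
    dig (2 ^ (b * b * q))
      (tab (2 ^ (b * b * q)) 2 fun i => VT q b Λ lt bt ps h (chT (2 ^ Λ) Λ u i)) i =
      VT q b Λ lt bt ps h (chT (2 ^ Λ) Λ u i) :=
  dig_tab (fun _ _ => VT_lt hg _ _) hi

theorem cell_lt {b c : ℕ} (hb : 0 < b) (hc : c < b * b) : c / b < b ∧ c % b < b :=
  ⟨Nat.div_lt_of_lt_mul hc, Nat.mod_lt _ hb⟩

theorem prodL_TB {q b : ℕ} {bt : ℕ → ℕ → ℕ} {W : ℕ → ℕ → ℕ} (hb : 0 < b)
    (hW : ∀ i j, W i j < 2 ^ q) (I J K : ℕ) :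
    prodL q b bt (TB q b W I K) (TB q b W K J) = SB q b bt W I J (K * b) ((K + 1) * b) := by
  unfold prodL SB
  refine tab_congr fun c hc => ?_
  obtain ⟨h1, h2⟩ := cell_lt hb hc
  rw [← orB_shift q b K (fun k => bt (W (I * b + c / b) k) (W k (J * b + c % b)))]
  refine orB_congr fun k _ hk => ?_
  rw [dig_TB hW I K h1 hk, dig_TB hW K J hk h2]

theorem sumL_SB {q b : ℕ} {bt : ℕ → ℕ → ℕ} {W : ℕ → ℕ → ℕ} (I J : ℕ)
    {lo hi lo' hi' lo'' hi'' : ℕ}
    (h : ∀ k, (lo ≤ k ∧ k < hi) ↔ (lo' ≤ k ∧ k < hi') ∨ (lo'' ≤ k ∧ k < hi'')) :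
    sumL q b (SB q b bt W I J lo' hi') (SB q b bt W I J lo'' hi'') = SB q b bt W I J lo hi := by
  unfold sumL
  conv_rhs => unfold SB
  refine tab_congr fun c hc => ?_
  unfold SB
  rw [dig_tab (fun _ _ => orB_lt _ _ _ _) hc, dig_tab (fun _ _ => orB_lt _ _ _ _) hc,
    orB_split _ h]

theorem SB_empty {q b : ℕ} {bt : ℕ → ℕ → ℕ} {W : ℕ → ℕ → ℕ} (I J : ℕ) {lo hi : ℕ}
    (h : hi ≤ lo) : SB q b bt W I J lo hi = 0 := by
  unfold SB tab
  refine sum_eq_zero fun c _ => ?_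
  beta_reduce
  rw [orB_empty h, zero_mul]

theorem lt01_pos {x y : ℕ} (h : x < y) : lt01 x y = 1 := by
  unfold lt01
  rw [if_pos h]

theorem lt01_neg {x y : ℕ} (h : ¬ x < y) : lt01 x y = 0 := by
  unfold lt01
  rw [if_neg h]

theorem main (loc : G_LOC) {q b Λ : ℕ} {lt : ℕ → ℕ} {bt : ℕ → ℕ → ℕ} {ps : ℕ → ℕ} (hb : 0 < b)
    (hg : Good q lt bt ps) : ∀ h : ℕ,
    (∀ I J, I ≤ J → J < 2 ^ Λ → (J - I) * (Λ + 2) + 1 ≤ h →
      VT q b Λ lt bt ps h (pack4 (2 ^ Λ) 0 I J 0) = TB q b (V q lt bt ps) I J) ∧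
    (∀ I J l K, I < J → J < 2 ^ Λ → l ≤ Λ → K < 2 ^ (Λ - l) →
      l + 1 + (J - I - 1) * (Λ + 2) + 1 ≤ h →
      VT q b Λ lt bt ps h (pack4 (2 ^ Λ) (l + 1) I J K) =
        SB q b bt (V q lt bt ps) I J (max ((I + 1) * b) (K * 2 ^ l * b))
          (min (J * b) ((K + 1) * 2 ^ l * b))) := by
  obtain ⟨hd, ho⟩ := loc q b lt bt ps hb hg
  have hM : 0 < 2 ^ Λ := by positivity
  intro h
  induction h with
  | zero =>
    refine ⟨fun I J _ _ h3 => ?_, fun I J l K _ _ _ _ h5 => ?_⟩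
    · omega
    · omega
  | succ h ih =>
    obtain ⟨iha, ihb⟩ := ih
    refine ⟨fun I J h1 h2 h3 => ?_, fun I J l K h1 h2 h3 h4 h5 => ?_⟩
    · obtain ⟨p1, p2, p3, p4⟩ := pack4_div (M := 2 ^ Λ) 0 (lt_of_le_of_lt h1 h2) h2 hM
      rw [VT_succ]
      have hc := dig_ch (Λ := Λ) (lt := lt) (b := b) hg h (pack4 (2 ^ Λ) 0 I J 0)
        (show 0 < 2 by norm_num)
      have hch : chT (2 ^ Λ) Λ (pack4 (2 ^ Λ) 0 I J 0) 0 = pack4 (2 ^ Λ) (Λ + 1) I J 0 := by
        unfold chT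
        rw [p1, p2, p3, ifz_of_eq rfl]
      rw [hch] at hc
      unfold FT
      rw [p1, p2, p3, ifz_of_eq rfl, hc]
      rcases Nat.lt_or_ge I J with h6 | h6
      · have h7 : eq01 I J = 0 := by
          unfold eq01
          rw [if_neg (by omega)]
        rw [h7, ifz_of_eq rfl]
        obtain ⟨d, hd'⟩ : ∃ d, J - I = d + 1 := ⟨J - I - 1, by omega⟩
        have h8 : Λ + 1 + (J - I - 1) * (Λ + 2) + 1 ≤ h := by
          rw [hd'] at h3 ⊢
          rw [Nat.succ_mul] at h3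
          have : d + 1 - 1 = d := by omega
          rw [this]
          omega
        rw [ihb I J Λ 0 h6 h2 le_rfl (by positivity) h8, ← ho I J h6]
        congr 1
        · rw [zero_mul, zero_mul]
          exact congrArg₂ _ (Nat.max_eq_left (Nat.zero_le _))
            (Nat.min_eq_left (Nat.mul_le_mul_right b (by omega)))
      · have h6' : I = J := le_antisymm h1 h6
        subst h6'
        have h7 : eq01 I I = 1 := by
          unfold eq01
          rw [if_pos rfl]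
        rw [h7, ifz_of_ne (by norm_num)]
        exact hd I
    · have hKM : K < 2 ^ Λ := lt_of_lt_of_le h4 (Nat.pow_le_pow_right (by norm_num) (by omega))
      obtain ⟨p1, p2, p3, p4⟩ := pack4_div (M := 2 ^ Λ) (l + 1) (lt_trans h1 h2) h2 hKM
      rw [VT_succ]
      have hc0 := dig_ch (Λ := Λ) (lt := lt) (b := b) hg h (pack4 (2 ^ Λ) (l + 1) I J K)
        (show 0 < 2 by norm_num)
      have hc1 := dig_ch (Λ := Λ) (lt := lt) (b := b) hg h (pack4 (2 ^ Λ) (l + 1) I J K)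
        (show 1 < 2 by norm_num)
      unfold FT
      rw [p1, p2, p3, p4, ifz_of_ne (Nat.succ_ne_zero l), Nat.add_sub_cancel, hc0, hc1]
      rcases Nat.eq_zero_or_pos l with h6 | h6
      · subst h6
        have hch0 : chT (2 ^ Λ) Λ (pack4 (2 ^ Λ) (0 + 1) I J K) 0 = pack4 (2 ^ Λ) 0 I K 0 := by
          unfold chT
          rw [p1, p2, p3, p4, ifz_of_ne (Nat.succ_ne_zero 0), ifz_of_eq rfl, ifz_of_eq rfl]
        have hch1 : chT (2 ^ Λ) Λ (pack4 (2 ^ Λ) (0 + 1) I J K) 1 = pack4 (2 ^ Λ) 0 K J 0 := by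
          unfold chT
          rw [p1, p2, p3, p4, ifz_of_ne (Nat.succ_ne_zero 0), ifz_of_eq rfl,
            ifz_of_ne (by norm_num)]
        rw [ifz_of_eq rfl, hch0, hch1, pow_zero, mul_one, mul_one]
        by_cases h7 : I < K ∧ K < J
        · rw [lt01_pos h7.1, lt01_pos h7.2, ifz_of_ne (by norm_num)]
          have h8 : (K - I) * (Λ + 2) ≤ (J - I - 1) * (Λ + 2) :=
            Nat.mul_le_mul_right _ (by omega)
          have h9 : (J - K) * (Λ + 2) ≤ (J - I - 1) * (Λ + 2) :=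
            Nat.mul_le_mul_right _ (by omega)
          rw [iha I K h7.1.le hKM (by omega), iha K J h7.2.le h2 (by omega),
            prodL_TB hb (V_lt hg) I J K]
          exact congrArg₂ _ (Nat.max_eq_right (Nat.mul_le_mul_right b (by omega))).symm
            (Nat.min_eq_right (Nat.mul_le_mul_right b (by omega))).symm
        · have h8 : lt01 I K * lt01 K J = 0 := by
            rcases Nat.lt_or_ge I K with h9 | h9
            · rw [lt01_neg (x := K) (y := J) (fun h10 => h7 ⟨h9, h10⟩), mul_zero]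
            · rw [lt01_neg (x := I) (y := K) (by omega), zero_mul]
          rw [h8, ifz_of_eq rfl, SB_empty]
          rcases Nat.lt_or_ge I K with h9 | h9
          · have h10 : J ≤ K := by
              by_contra h11
              exact h7 ⟨h9, by omega⟩
            exact (min_le_left _ _).trans ((Nat.mul_le_mul_right b h10).trans (le_max_right _ _))
          · exact (min_le_right _ _).trans
              ((Nat.mul_le_mul_right b (by omega)).trans (le_max_left _ _))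
      · obtain ⟨l, rfl⟩ : ∃ l', l = l' + 1 := ⟨l - 1, by omega⟩
        have hpow : 2 ^ (Λ - l) = 2 * 2 ^ (Λ - (l + 1)) := by
          rw [← pow_succ']
          congr 1
          omega
        have hM2 : 2 ^ (Λ - l) ≤ 2 ^ Λ := Nat.pow_le_pow_right (by norm_num) (by omega)
        have hch : ∀ i < 2, chT (2 ^ Λ) Λ (pack4 (2 ^ Λ) (l + 1 + 1) I J K) i =
            pack4 (2 ^ Λ) (l + 1) I J (2 * K + i) := by
          intro i hi
          unfold chT
          rw [p1, p2, p3, p4, ifz_of_ne (Nat.succ_ne_zero _), Nat.add_sub_cancel,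
            ifz_of_ne (Nat.succ_ne_zero _), Nat.mod_eq_of_lt (by omega)]
        rw [ifz_of_ne (Nat.succ_ne_zero _), hch 0 (by norm_num), hch 1 (by norm_num),
          ihb I J l (2 * K + 0) h1 h2 (by omega) (by omega) (by omega),
          ihb I J l (2 * K + 1) h1 h2 (by omega) (by omega) (by omega)]
        refine sumL_SB I J fun k => ?_
        have e1 : K * 2 ^ (l + 1) * b = (2 * K + 0) * 2 ^ l * b := by ring
        have e2 : (K + 1) * 2 ^ (l + 1) * b = (2 * K + 1 + 1) * 2 ^ l * b := by ring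
        have e3 : (2 * K + 0 + 1) * 2 ^ l * b = (2 * K + 1) * 2 ^ l * b := by ring
        have e4 : (2 * K + 0) * 2 ^ l * b ≤ (2 * K + 1) * 2 ^ l * b :=
          Nat.mul_le_mul_right b (Nat.mul_le_mul_right _ (by omega))
        have e5 : (2 * K + 1) * 2 ^ l * b ≤ (2 * K + 1 + 1) * 2 ^ l * b :=
          Nat.mul_le_mul_right b (Nat.mul_le_mul_right _ (by omega))
        rw [e1, e2, e3]
        generalize (2 * K + 0) * 2 ^ l * b = A at *
        generalize (2 * K + 1) * 2 ^ l * b = B at *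
        generalize (2 * K + 1 + 1) * 2 ^ l * b = C at *
        generalize (I + 1) * b = X at *
        generalize J * b = Y at *
        omega

theorem thm (loc : G_LOC) : G_TREE := by
  intro q b Λ m lt bt ps hb hg hm
  unfold eng
  rw [(main loc hb hg (m / b * (Λ + 2) + 1)).1 0 (m / b) (Nat.zero_le _) hm (by simp)]
  have h1 : m % b < b := Nat.mod_lt _ hb
  have h2 := dig_TB (q := q) (b := b) (V_lt hg) 0 (m / b) (r := 0) hb h1
  rw [zero_mul, zero_add] at h2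
  rw [h2]
  congr 1
  have h3 := Nat.div_add_mod m b
  rw [mul_comm] at h3
  exact h3

end Pool.Agent.Helper27.BG.PkTREE
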